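import Mathlib

/-!
From the explicit bounds to the asymptotic formula.
-/

set_option autoImplicit false

namespace Pool.Agent.Y421.SF

open Filter Topology Real

theorem ev_log : ∀ᶠ y : ℝ in atTop, 8 * logb 2 y ≤ y := by
  have h := (isLittleO_log_id_atTop).bound (c := Real.log 2 / 8)
    (by have := Real.log_pos (show (1 : ℝ) < 2 by norm_num); positivity)
  filter_upwards [h, eventually_ge_atTop 1] with y hy hy1
  have hl2 : 0 < Real.log 2 := Real.log_pos (by norm_num)
  have hly : 0 ≤ Real.log y := Real.log_nonneg hy1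
  rw [Real.norm_of_nonneg hly, id, Real.norm_of_nonneg (by linarith)] at hy
  rw [Real.logb, ← mul_div_assoc, div_le_iff₀ hl2]
  linarith

theorem ev_sq : ∀ᶠ y : ℝ in atTop, 10 * (logb 2 y + 6) ^ 2 ≤ y := by
  have h := (isLittleO_pow_log_id_atTop (n := 2)).bound (c := Real.log 2 ^ 2 / 40)
    (by have := Real.log_pos (show (1 : ℝ) < 2 by norm_num); positivity)
  filter_upwards [h, eventually_ge_atTop ((2 : ℝ) ^ (6 : ℕ))] with y hy hy1
  have hl2 : 0 < Real.log 2 := Real.log_pos (by norm_num)
  have hy0 : (0 : ℝ) < y := lt_of_lt_of_le (by norm_num) hy1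
  have hlb : 6 ≤ logb 2 y := by
    rw [Real.le_logb_iff_rpow_le (by norm_num) hy0]
    exact_mod_cast hy1
  rw [Real.norm_of_nonneg (by positivity), id, Real.norm_of_nonneg hy0.le] at hy
  have h1 : (logb 2 y) ^ 2 = Real.log y ^ 2 / Real.log 2 ^ 2 := by
    rw [Real.logb, div_pow]
  have h2 : (logb 2 y) ^ 2 ≤ y / 40 := by
    rw [h1, div_le_iff₀ (by positivity)]
    linarith
  nlinarith

theorem asym (f : ℕ → ℕ)
    (hup : ∀ n k : ℕ, 1 ≤ n → 10 * k ^ 2 ≤ n → 8 * n ≤ 2 ^ (k - 1) * (k - 14) →
      f n ≤ n + k + 1)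
    (hlow : ∀ n x : ℕ, 2 ≤ n → f n ≤ n + x → n ≤ (2 * x + 1) * 2 ^ (x + 1) + x + 3) :
    ∀ᶠ n : ℕ in atTop,
      (n : ℝ) + logb 2 n - logb 2 (logb 2 n) - 3 ≤ f n ∧
      (f n : ℝ) ≤ n + logb 2 n - logb 2 (logb 2 n) + 7 := by
  have hcast : Tendsto (fun n : ℕ => (n : ℝ)) atTop atTop := tendsto_natCast_atTop_atTop
  have hL : Tendsto (fun n : ℕ => logb 2 (n : ℝ)) atTop atTop :=
    (Real.tendsto_logb_atTop (by norm_num)).comp hcast
  filter_upwards [hL.eventually ev_log, hcast.eventually ev_sq,
    hL.eventually (eventually_ge_atTop 24), eventually_ge_atTop 2] with n h1 h2 h3 hn2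
  set L := logb 2 (n : ℝ) with hLdef
  set M := logb 2 L with hMdef
  have hnR : (2 : ℝ) ≤ n := by exact_mod_cast hn2
  have hM1 : 0 ≤ M := Real.logb_nonneg (by norm_num) (by linarith)
  have h2L : (2 : ℝ) ^ L = n := Real.rpow_logb (by norm_num) (by norm_num) (by linarith)
  have h2M : (2 : ℝ) ^ M = L := Real.rpow_logb (by norm_num) (by norm_num) (by linarith)
  constructor
  · by_contra hcon
    push Not at hcon
    set x := f n - n with hx
    have hxR : (x : ℝ) < L - M - 3 := by
      rcases le_or_gt n (f n) with h | h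
      · rw [hx, Nat.cast_sub h]
        linarith
      · have : x = 0 := by omega
        rw [this, Nat.cast_zero]
        linarith
    have hb := hlow n x hn2 (by omega)
    have hbR : (n : ℝ) ≤ (2 * x + 1) * 2 ^ (x + 1) + x + 3 := by exact_mod_cast hb
    have hp : (2 : ℝ) ^ (x + 1) ≤ n / (4 * L) := by
      rw [← Real.rpow_natCast]
      calc (2 : ℝ) ^ ((x + 1 : ℕ) : ℝ) ≤ 2 ^ (L - (M + 2)) := by
            refine Real.rpow_le_rpow_of_exponent_le (by norm_num) ?_
            push_cast
            linarith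
        _ = n / (4 * L) := by
            rw [Real.rpow_sub (by norm_num), h2L, Real.rpow_add (by norm_num), h2M]
            norm_num
            ring
    have hx0 : (0 : ℝ) ≤ x := Nat.cast_nonneg _
    have h5 : (2 * (x : ℝ) + 1) * 2 ^ (x + 1) ≤ (2 * L) * (n / (4 * L)) := by
      refine mul_le_mul (by linarith) hp (by positivity) (by linarith)
    have h6 : (2 * L) * (n / (4 * L)) = (n : ℝ) / 2 := by
      field_simp
      ring
    nlinarith
  · have hfl1 : (⌊L - M⌋₊ : ℝ) ≤ L - M := Nat.floor_le (by linarith)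
    have hfl2 : L - M < ⌊L - M⌋₊ + 1 := Nat.lt_floor_add_one _
    set k := ⌊L - M⌋₊ + 6 with hk
    have hk1 : (k : ℝ) ≤ L - M + 6 := by
      rw [hk]
      push_cast
      linarith
    have hk2 : L - M + 5 < (k : ℝ) := by
      rw [hk]
      push_cast
      linarith
    have hk14 : 14 ≤ k := by
      have : (14 : ℝ) ≤ k := by linarith
      exact_mod_cast this
    have hf := hup n k (by omega) ?_ ?_
    · have hfR : (f n : ℝ) ≤ n + k + 1 := by exact_mod_cast hf
      linarith
    · have : (10 : ℝ) * (k : ℝ) ^ 2 ≤ n := by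
        refine le_trans ?_ h2
        have : (k : ℝ) ≤ L + 6 := by linarith
        gcongr
      exact_mod_cast this
    · have hp : (n : ℝ) / L * 16 ≤ 2 ^ (k - 1) := by
        rw [← Real.rpow_natCast]
        calc (n : ℝ) / L * 16 = 2 ^ (L - M + 4) := by
              rw [Real.rpow_add (by norm_num), Real.rpow_sub (by norm_num), h2L, h2M]
              norm_num
          _ ≤ 2 ^ ((k - 1 : ℕ) : ℝ) := by
              refine Real.rpow_le_rpow_of_exponent_le (by norm_num) ?_
              rw [Nat.cast_sub (by omega)]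
              push_cast
              linarith
      have h7 : L / 2 ≤ ((k - 14 : ℕ) : ℝ) := by
        rw [Nat.cast_sub hk14]
        push_cast
        linarith
      have h8 : (n : ℝ) / L * 16 * (L / 2) ≤ 2 ^ (k - 1) * ((k - 14 : ℕ) : ℝ) :=
        mul_le_mul hp h7 (by linarith) (by positivity)
      have h9 : (n : ℝ) / L * 16 * (L / 2) = 8 * n := by
        field_simp
        ring
      rw [h9] at h8
      exact_mod_cast h8

end Pool.Agent.Y421.SF
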