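import Mathlib

/-!
The finite Ramsey theorem for graphs (copied from `Pool.Agent.H866R3.Upper`).
-/

set_option autoImplicit false

namespace Pool.Agent.Y421.SF

open Finset

theorem ramsey_finset (s : ℕ) : ∀ t : ℕ, ∃ N : ℕ, ∀ (V : Type) (H : SimpleGraph V)
    (A : Finset V), N ≤ A.card →
    (∃ S ⊆ A, H.IsNClique s S) ∨ (∃ S ⊆ A, Hᶜ.IsNClique t S) := by
  classical
  induction s with
  | zero =>
    intro t
    exact ⟨0, fun V H A _ => Or.inl ⟨∅, empty_subset _, by simp [SimpleGraph.isNClique_iff]⟩⟩
  | succ s ihs =>
    intro t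
    induction t with
    | zero =>
      exact ⟨0, fun V H A _ => Or.inr ⟨∅, empty_subset _, by simp [SimpleGraph.isNClique_iff]⟩⟩
    | succ t iht =>
      obtain ⟨N1, h1⟩ := ihs (t + 1)
      obtain ⟨N2, h2⟩ := iht
      refine ⟨N1 + N2 + 1, fun V H A hA => ?_⟩
      obtain ⟨x, hx⟩ : A.Nonempty := by
        rw [← card_pos]; omega
      have hc := card_filter_add_card_filter_not (s := A.erase x) (fun y => H.Adj x y)
      rw [card_erase_of_mem hx] at hc
      by_cases hN : N1 ≤ ((A.erase x).filter (fun y => H.Adj x y)).card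
      · rcases h1 V H _ hN with ⟨S, hS, hcl⟩ | ⟨S, hS, hcl⟩
        · left
          refine ⟨insert x S, ?_, ?_⟩
          · intro y hy
            rw [mem_insert] at hy
            rcases hy with rfl | hy
            · exact hx
            · exact mem_of_mem_erase (mem_filter.1 (hS hy)).1
          · exact hcl.insert (fun b hb => (mem_filter.1 (hS hb)).2)
        · right
          exact ⟨S, fun y hy => mem_of_mem_erase (mem_filter.1 (hS hy)).1, hcl⟩
      · have hN' : N2 ≤ ((A.erase x).filter (fun y => ¬ H.Adj x y)).card := by omega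
        rcases h2 V H _ hN' with ⟨S, hS, hcl⟩ | ⟨S, hS, hcl⟩
        · left
          exact ⟨S, fun y hy => mem_of_mem_erase (mem_filter.1 (hS hy)).1, hcl⟩
        · right
          refine ⟨insert x S, ?_, ?_⟩
          · intro y hy
            rw [mem_insert] at hy
            rcases hy with rfl | hy
            · exact hx
            · exact mem_of_mem_erase (mem_filter.1 (hS hy)).1
          · refine hcl.insert (fun b hb => ?_)
            have := mem_filter.1 (hS hb)
            rw [SimpleGraph.compl_adj]
            exact ⟨fun h => (ne_of_mem_erase this.1) h.symm, this.2⟩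

theorem ramsey_exists {n : ℕ} (G : SimpleGraph (Fin n)) :
    ∃ N : ℕ, ∀ H : SimpleGraph (Fin N), G.IsContained H ∨ G.IsContained Hᶜ := by
  obtain ⟨N, hN⟩ := ramsey_finset n n
  refine ⟨N, fun H => ?_⟩
  have htop : G.IsContained (SimpleGraph.completeGraph (Fin n)) := SimpleGraph.IsContained.of_le le_top
  rcases hN (Fin N) H univ (by simp) with ⟨S, -, hS⟩ | ⟨S, -, hS⟩
  · left
    exact htop.trans ((SimpleGraph.not_cliqueFree_iff_top_isContained n).1 (fun h => h S hS))
  · right
    exact htop.trans ((SimpleGraph.not_cliqueFree_iff_top_isContained n).1 (fun h => h S hS))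

end Pool.Agent.Y421.SF
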