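import Pool.Agent.Results.MP_705b7e_co.StarForestBounds

/-!
Every finite graph without isolated vertices contains a spanning star forest.
-/

set_option autoImplicit false

namespace Pool.Agent.Y421.SF

open Finset Classical
open Pool.Agent.Results.MP_705b7e_co.StarForestBounds

theorem exists_minimal_spanning {n : ℕ} (G : SimpleGraph (Fin n)) (hG : ∀ v, ∃ w, G.Adj v w) :
    ∃ H : SimpleGraph (Fin n), H ≤ G ∧ (∀ v, ∃ w, H.Adj v w) ∧
      ∀ a b, H.Adj a b → (∀ w, H.Adj a w → w = b) ∨ (∀ w, H.Adj b w → w = a) := by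
  let S : Set (SimpleGraph (Fin n)) := {H | H ≤ G ∧ ∀ v, ∃ w, H.Adj v w}
  have hS : S.Nonempty := ⟨G, le_rfl, hG⟩
  obtain ⟨H, hH⟩ := (Set.toFinite S).exists_minimal hS
  refine ⟨H, hH.prop.1, hH.prop.2, ?_⟩
  intro a b hab
  by_contra hcon
  push Not at hcon
  obtain ⟨⟨w, hw, hwb⟩, ⟨w', hw', hwa⟩⟩ := hcon
  have hmem : H.deleteEdges {s(a, b)} ∈ S := by
    refine ⟨(SimpleGraph.deleteEdges_le _).trans hH.prop.1, ?_⟩
    intro v
    by_cases hva : v = a
    · subst hva
      refine ⟨w, ?_⟩
      rw [SimpleGraph.deleteEdges_adj]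
      refine ⟨hw, ?_⟩
      simp only [Set.mem_singleton_iff, Sym2.eq_iff, not_or, not_and]
      exact ⟨fun _ => hwb, fun h _ => hab.ne h⟩
    · by_cases hvb : v = b
      · subst hvb
        refine ⟨w', ?_⟩
        rw [SimpleGraph.deleteEdges_adj]
        refine ⟨hw', ?_⟩
        simp only [Set.mem_singleton_iff, Sym2.eq_iff, not_or, not_and]
        exact ⟨fun h _ => hva h, fun _ => hwa⟩
      · obtain ⟨u, hu⟩ := hH.prop.2 v
        refine ⟨u, ?_⟩
        rw [SimpleGraph.deleteEdges_adj]
        refine ⟨hu, ?_⟩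
        simp only [Set.mem_singleton_iff, Sym2.eq_iff, not_or, not_and]
        exact ⟨fun h _ => hva h, fun h _ => hvb h⟩
  have hle := hH.le_of_le hmem (SimpleGraph.deleteEdges_le _)
  have := hle hab
  rw [SimpleGraph.deleteEdges_adj] at this
  exact this.2 rfl

theorem exists_center_map {n : ℕ} (G : SimpleGraph (Fin n)) (hG : ∀ v, ∃ w, G.Adj v w) :
    ∃ f : Fin n → Fin n, (∀ v, f (f v) = f v) ∧ (∀ v, v ≠ f v → G.Adj (f v) v) ∧
      (∀ v, ∃ w, w ≠ f v ∧ f w = f v) := by
  obtain ⟨H, hHG, hH1, hH2⟩ := exists_minimal_spanning G hG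
  choose nb hnb using hH1
  let D : Fin n → Prop := fun v => ∃ w, H.Adj v w ∧ w ≠ nb v
  have hnD : ∀ v, ¬ D v → ∀ w, H.Adj v w → w = nb v := by
    intro v hv w hw
    by_contra hcon
    exact hv ⟨w, hw, hcon⟩
  let f : Fin n → Fin n := fun v => if D v then v else if D (nb v) then nb v else min v (nb v)
  have f1 : ∀ v, D v → f v = v := by
    intro v hv
    simp only [f, if_pos hv]
  have f2 : ∀ v, ¬ D v → D (nb v) → f v = nb v := by
    intro v hv hv'
    simp only [f, if_neg hv, if_pos hv']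
  have f3 : ∀ v, ¬ D v → ¬ D (nb v) → f v = min v (nb v) := by
    intro v hv hv'
    simp only [f, if_neg hv, if_neg hv']
  have hback : ∀ v, ¬ D (nb v) → nb (nb v) = v := by
    intro v hv
    exact (hnD _ hv v (hnb v).symm).symm
  have f4 : ∀ v, ¬ D v → ¬ D (nb v) → f (nb v) = min v (nb v) := by
    intro v hv hv'
    rw [f3 (nb v) hv' (by rwa [hback v hv']), hback v hv', min_comm]
  refine ⟨f, ?_, ?_, ?_⟩
  · intro v
    by_cases hv : D v
    · rw [f1 v hv, f1 v hv]
    · by_cases hv' : D (nb v)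
      · rw [f2 v hv hv', f1 _ hv']
      · rw [f3 v hv hv']
        rcases min_choice v (nb v) with h | h
        · rw [h, f3 v hv hv', h]
        · rw [h, f4 v hv hv', h]
  · intro v hne
    by_cases hv : D v
    · rw [f1 v hv] at hne
      exact absurd rfl hne
    · by_cases hv' : D (nb v)
      · rw [f2 v hv hv']
        exact hHG (hnb v).symm
      · rw [f3 v hv hv'] at hne ⊢
        rcases min_choice v (nb v) with h | h
        · rw [h] at hne
          exact absurd rfl hne
        · rw [h]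
          exact hHG (hnb v).symm
  · intro v
    by_cases hv : D v
    · rw [f1 v hv]
      have h1 : ∀ w, H.Adj (nb v) w → w = v := by
        rcases hH2 v (nb v) (hnb v) with h | h
        · obtain ⟨w, hw, hwn⟩ := hv
          exact absurd (h w hw) hwn
        · exact h
      have h2 : nb (nb v) = v := h1 _ (hnb _)
      have h3 : ¬ D (nb v) := by
        rintro ⟨w, hw, hwn⟩
        exact hwn ((h1 w hw).trans h2.symm)
      refine ⟨nb v, (hnb v).ne', ?_⟩
      rw [f2 (nb v) h3 (by rwa [h2]), h2]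
    · by_cases hv' : D (nb v)
      · rw [f2 v hv hv']
        exact ⟨v, (hnb v).ne, f2 v hv hv'⟩
      · rw [f3 v hv hv']
        rcases min_choice v (nb v) with h | h
        · rw [h]
          exact ⟨nb v, (hnb v).ne', by rw [f4 v hv hv', h]⟩
        · rw [h]
          exact ⟨v, (hnb v).ne, by rw [f3 v hv hv', h]⟩

theorem exists_starForest {n : ℕ} (G : SimpleGraph (Fin n)) (hG : ∀ v, ∃ w, G.Adj v w) :
    ∃ (k : ℕ) (s : ℕ → ℕ), (∀ i j, i ≤ j → j < k → s j ≤ s i) ∧ (∀ i < k, 1 ≤ s i) ∧
      ∑ l ∈ range k, s l + k = n ∧ (starForest k s).IsContained G := by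
  obtain ⟨f, hf1, hf2, hf3⟩ := exists_center_map G hG
  set D : Finset (Fin n) := univ.filter (fun v => f v = v) with hD
  have hDmem : ∀ v, v ∈ D ↔ f v = v := by
    intro v
    simp [hD]
  let Lf : Fin n → Finset (Fin n) := fun c => univ.filter (fun v => f v = c ∧ v ≠ c)
  have hLf : ∀ c v, v ∈ Lf c ↔ f v = c ∧ v ≠ c := by
    intro c v
    simp [Lf]
  let a : Fin n → ℕ := fun c => (Lf c).card
  obtain ⟨e0⟩ : Nonempty (Fin D.card ≃ D) := ⟨D.equivFin.symm⟩
  let g : Fin D.card → ℕᵒᵈ := fun i => OrderDual.toDual (a (e0 i))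
  let σ := Tuple.sort g
  have hσ : Monotone (g ∘ σ) := Tuple.monotone_sort g
  let e : Fin D.card ≃ D := σ.trans e0
  have he : ∀ i j : Fin D.card, i ≤ j → a (e j) ≤ a (e i) := by
    intro i j hij
    exact hσ hij
  let s : ℕ → ℕ := fun i => if h : i < D.card then a (e ⟨i, h⟩) else 0
  have hs : ∀ i : Fin D.card, s i = a (e i) := by
    intro i
    simp only [s, i.2, dif_pos, Fin.eta]
  have hfe : ∀ i : Fin D.card, f (e i) = e i := fun i => (hDmem _).mp (e i).2
  refine ⟨D.card, s, ?_, ?_, ?_, ?_⟩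
  · intro i j hij hj
    have h1 := hs ⟨i, by omega⟩
    have h2 := hs ⟨j, hj⟩
    simp only at h1 h2
    rw [h1, h2]
    exact he _ _ hij
  · intro i hi
    have h1 := hs ⟨i, hi⟩
    simp only at h1
    rw [h1]
    obtain ⟨w, hw1, hw2⟩ := hf3 (e ⟨i, hi⟩)
    rw [hfe] at hw1 hw2
    refine Finset.card_pos.mpr ⟨w, ?_⟩
    rw [hLf]
    exact ⟨hw2, hw1⟩
  · have h1 : ∑ l ∈ range D.card, s l = ∑ c ∈ D, a c := by
      rw [← Fin.sum_univ_eq_sum_range, ← Finset.sum_coe_sort D a, ← e.sum_comp]
      exact Finset.sum_congr rfl fun i _ => hs i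
    have h2 : ∑ c ∈ D, (a c + 1) = n := by
      have h3 := Finset.card_eq_sum_card_fiberwise (s := (univ : Finset (Fin n))) (t := D) (f := f)
        (fun v _ => (hDmem _).mpr (hf1 v))
      rw [Finset.card_univ, Fintype.card_fin] at h3
      refine Eq.trans ?_ h3.symm
      refine Finset.sum_congr rfl fun c hc => ?_
      have h4 : (univ.filter (fun v => f v = c)) = insert c (Lf c) := by
        ext v
        simp only [mem_filter, mem_univ, true_and, mem_insert, hLf]
        constructor
        · intro h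
          by_cases hvc : v = c
          · exact Or.inl hvc
          · exact Or.inr ⟨h, hvc⟩
        · rintro (rfl | h)
          · exact (hDmem _).mp hc
          · exact h.1
      rw [h4, Finset.card_insert_of_notMem]
      rw [hLf]
      exact fun h => h.2 rfl
    rw [h1]
    refine Eq.trans ?_ h2
    rw [Finset.sum_add_distrib]
    simp
  · have hcard : ∀ i : Fin D.card, Fintype.card (Lf (e i)) = s i := by
      intro i
      rw [hs i, Fintype.card_coe]
    let ℓ : ∀ i : Fin D.card, Lf (e i) ≃ Fin (s i) := fun i => Fintype.equivFinOfCardEq (hcard i)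
    have hmem : ∀ (i : Fin D.card) (x : Fin (s i)),
        f ((ℓ i).symm x : Fin n) = e i ∧ ((ℓ i).symm x : Fin n) ≠ e i := by
      intro i x
      exact (hLf _ _).mp ((ℓ i).symm x).2
    let φ : (Σ i : Fin D.card, Option (Fin (s i))) → Fin n := fun x => match x with
      | ⟨i, none⟩ => e i
      | ⟨i, some y⟩ => ((ℓ i).symm y : Fin n)
    have hφ : ∀ x, f (φ x) = e x.1 := by
      rintro ⟨i, y⟩
      rcases y with _ | y
      · exact hfe i
      · exact (hmem i y).1
    refine ⟨⟨⟨φ, ?_⟩, ?_⟩⟩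
    · rintro ⟨i, x⟩ ⟨j, y⟩ ⟨hij, hxy⟩
      obtain rfl : i = j := hij
      have hadj : ∀ y : Fin (s i), G.Adj (e i : Fin n) ((ℓ i).symm y : Fin n) := by
        intro y
        have h1 := hmem i y
        have h2 := hf2 ((ℓ i).symm y : Fin n) (by rw [h1.1]; exact h1.2)
        rwa [h1.1] at h2
      rcases x with _ | x <;> rcases y with _ | y
      · simp at hxy
      · exact hadj y
      · exact (hadj x).symm
      · simp at hxy
    · intro x y hxy
      have h0 : φ x = φ y := hxy
      have h1 : e x.1 = e y.1 := by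
        refine Subtype.ext ?_
        rw [← hφ x, ← hφ y, h0]
      have h2 : x.1 = y.1 := e.injective h1
      obtain ⟨i, x⟩ := x
      obtain ⟨j, y⟩ := y
      simp only at h2
      subst h2
      rcases x with _ | x <;> rcases y with _ | y
      · rfl
      · exact absurd h0.symm (hmem i y).2
      · exact absurd h0 (hmem i x).2
      · have h3 : (ℓ i).symm x = (ℓ i).symm y := Subtype.ext h0
        rw [(ℓ i).symm.injective h3]

end Pool.Agent.Y421.SF
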