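import Pool.Agent.Y421.SF.Upper
import Pool.Agent.Y421.SF.Span

/-!
Explicit upper and lower bounds for the smallest Ramsey number of a graph with `n` vertices and
no isolated vertex.
-/

set_option autoImplicit false

namespace Pool.Agent.Y421.SF

open Finset Classical
open Pool.Agent.Results.MP_705b7e_co.StarForestBounds

/-- Repeated halving, rounded up. -/
def hlf (m : ℕ) : ℕ → ℕ
  | 0 => m
  | i + 1 => (hlf m i + 1) / 2

theorem hlf_le (m i : ℕ) : 2 ^ i * hlf m i + 1 ≤ m + 2 ^ i := by
  induction i with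
  | zero => simp [hlf]
  | succ i ih =>
    have h1 : 2 * hlf m (i + 1) ≤ hlf m i + 1 := by
      simp only [hlf]
      omega
    calc 2 ^ (i + 1) * hlf m (i + 1) + 1 = 2 ^ i * (2 * hlf m (i + 1)) + 1 := by ring
      _ ≤ 2 ^ i * (hlf m i + 1) + 1 := by
        have := Nat.mul_le_mul_left (2 ^ i) h1
        omega
      _ = (2 ^ i * hlf m i + 1) + 2 ^ i := by ring
      _ ≤ (m + 2 ^ i) + 2 ^ i := by omega
      _ = m + 2 ^ (i + 1) := by ring

theorem le_hlf (m i : ℕ) : m ≤ 2 ^ i * hlf m i := by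
  induction i with
  | zero => simp [hlf]
  | succ i ih =>
    have h1 : hlf m i ≤ 2 * hlf m (i + 1) := by
      simp only [hlf]
      omega
    calc m ≤ 2 ^ i * hlf m i := ih
      _ ≤ 2 ^ i * (2 * hlf m (i + 1)) := Nat.mul_le_mul_left _ h1
      _ = 2 ^ (i + 1) * hlf m (i + 1) := by ring

/-- The star sizes. -/
def sz (m k i : ℕ) : ℕ := if i = k - 1 then hlf m i + 1 else hlf m i / 2 + 1

/-- The numbers of vertices of the last stars. -/
def rh (m k i : ℕ) : ℕ := if i < k then hlf m i + 2 * (k - i) else 0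

theorem rh_succ (m k i : ℕ) (hi : i < k) : rh m k i = rh m k (i + 1) + sz m k i + 1 := by
  simp only [rh, sz, hi, if_true]
  by_cases h : i = k - 1
  · rw [if_pos h, if_neg (by omega)]
    omega
  · rw [if_neg h, if_pos (by omega)]
    simp only [hlf]
    omega

theorem sum_rh (m k : ℕ) (i : ℕ) (hi : i ≤ k) :
    ∑ l ∈ range i, sz m k l + i + rh m k i = rh m k 0 := by
  induction i with
  | zero => simp
  | succ i ih =>
    have h1 := ih (by omega)
    have h2 := rh_succ m k i (by omega)
    rw [Finset.sum_range_succ]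
    omega

theorem upper_explicit (n k : ℕ) (hn0 : 1 ≤ n) (hn : 10 * k ^ 2 ≤ n)
    (hk : 8 * n ≤ 2 ^ (k - 1) * (k - 14)) :
    ∃ s : ℕ → ℕ, (∀ i < k, 1 ≤ s i) ∧ ∑ l ∈ range k, s l + k = n ∧
      Arrows (n + k + 1) (starForest k s) := by
  have hk15 : 15 ≤ k := by
    by_contra h
    rw [show k - 14 = 0 by omega] at hk
    omega
  have hkn : 150 * k ≤ n := by
    refine le_trans ?_ hn
    have := Nat.mul_le_mul_left (10 * k) hk15
    calc 150 * k = 10 * k * 15 := by ring
      _ ≤ 10 * k * k := this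
      _ = 10 * k ^ 2 := by ring
  set m := n - 2 * k with hm
  have hr0 : rh m k 0 = n := by
    simp only [rh, hlf]
    rw [if_pos (by omega)]
    omega
  have hrk : rh m k k = 0 := by simp [rh]
  have hsum : ∑ l ∈ range k, sz m k l + k = n := by
    have := sum_rh m k k le_rfl
    omega
  -- the smallest star
  have hYs : 8 * (hlf m (k - 1) + 1) ≤ k + 2 := by
    have h1 := hlf_le m (k - 1)
    have hp : 0 < 2 ^ (k - 1) := by positivity
    have h2 : 2 ^ (k - 1) * (8 * hlf m (k - 1)) < 2 ^ (k - 1) * (k - 6) := by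
      calc 2 ^ (k - 1) * (8 * hlf m (k - 1)) = 8 * (2 ^ (k - 1) * hlf m (k - 1)) := by ring
        _ < 8 * n + 8 * 2 ^ (k - 1) := by omega
        _ ≤ 2 ^ (k - 1) * (k - 14) + 8 * 2 ^ (k - 1) := by omega
        _ = 2 ^ (k - 1) * ((k - 14) + 8) := by ring
        _ = 2 ^ (k - 1) * (k - 6) := by rw [show k - 14 + 8 = k - 6 by omega]
    have h3 := Nat.lt_of_mul_lt_mul_left h2
    omega
  have hq : sz m k (k - 1) = hlf m (k - 1) + 1 := by simp [sz]
  set q := sz m k (k - 1) with hqdef
  have hq1 : 1 ≤ q := by omega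
  have hqk : 8 * q ≤ k + 2 := by omega
  refine ⟨sz m k, ?_, hsum, ?_⟩
  · intro i _
    simp only [sz]
    split_ifs <;> omega
  intro R
  refine pack_main (V := Fin (n + k + 1)) k (k + 1) (sz m k) (rh m k) (by omega)
    (fun i hi => rh_succ m k i hi) hrk ?_ ?_ ?_ hq1 ?_ (by omega) ?_ ?_ ?_ ?_ R
  · intro i hi
    simp only [sz, rh]
    rw [if_neg (by omega), if_pos (by omega)]
    omega
  · rw [hr0]
    simp only [Fintype.card_fin]
    omega
  · omega
  · omega
  · simp only [Fintype.card_fin]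
    omega
  · simp only [Fintype.card_fin, sz]
    rw [if_neg (by omega)]
    simp only [hlf]
    omega
  · simp only [Fintype.card_fin]
    rw [← hqdef]
    have h1 := sum_rh m k (q + 1) (by omega)
    have h2 : rh m k (q + 1) = hlf m (q + 1) + 2 * (k - (q + 1)) := by
      simp only [rh]
      rw [if_pos (by omega)]
    set Y := hlf m (q + 1) with hY
    set P := ∑ l ∈ range (q + 1), sz m k l with hP
    have h3 : P + 1 + Y + 2 * k = n + q + 2 := by omega
    have h4 : 2 ^ (q + 1) * Y + 1 ≤ m + 2 ^ (q + 1) := hlf_le m (q + 1)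
    have h5 : q + 1 ≤ 2 ^ q := Nat.lt_two_pow_self
    have h6 : 2 * ((q + 1) * Y) ≤ m + 2 * (q + 1) := by
      rcases Nat.eq_zero_or_pos Y with h0 | h0
      · rw [h0]
        omega
      · obtain ⟨y, hy⟩ : ∃ y, Y = y + 1 := ⟨Y - 1, by omega⟩
        have h7 : 2 ^ (q + 1) * y ≤ m := by
          rw [hy] at h4
          have : 2 ^ (q + 1) * (y + 1) = 2 ^ (q + 1) * y + 2 ^ (q + 1) := by ring
          omega
        have h8 : 2 * (q + 1) * y ≤ 2 ^ (q + 1) * y := by
          refine Nat.mul_le_mul_right _ ?_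
          rw [pow_succ]
          omega
        rw [hy]
        calc 2 * ((q + 1) * (y + 1)) = 2 * (q + 1) * y + 2 * (q + 1) := by ring
          _ ≤ m + 2 * (q + 1) := by omega
    have h9 : q * k * 8 ≤ (k + 2) * k := by nlinarith
    have h10 : k * k * 10 ≤ n := by
      calc k * k * 10 = 10 * k ^ 2 := by ring
        _ ≤ n := hn
    -- (q + 1) (P + 1) - (n + k + 1) q
    have h11 : (q + 1) * (P + 1) + (q + 1) * Y + (q + 1) * (2 * k) = (q + 1) * (n + q + 2) := by
      rw [← h3]
      ring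
    have h12 : (q + 1) * (n + q + 2) = n * q + n + (q + 1) * (q + 2) := by ring
    have h13 : (n + k + 1) * q = n * q + (k * q + q) := by ring
    have h14 : (q + 1) * (2 * k) = 2 * (k * q) + 2 * k := by ring
    have h15 : 8 * (k * q) ≤ k * k + 2 * k := by
      calc 8 * (k * q) = q * k * 8 := by ring
        _ ≤ (k + 2) * k := h9
        _ = k * k + 2 * k := by ring
    have h16 : 15 * k ≤ k * k := Nat.mul_le_mul_right _ hk15
    have h17 : q + 1 ≤ (q + 1) * (q + 2) := by nlinarith
    omega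
  · intro l hl1 hlq
    simp only [Fintype.card_fin]
    rw [← hqdef] at hlq
    have h1 : sz m k l = hlf m l / 2 + 1 := by
      simp only [sz]
      rw [if_neg (by omega)]
    have h2 := le_hlf m l
    have h3 : 2 ^ l * hlf m l ≤ 2 ^ l * (2 * sz m k l) := Nat.mul_le_mul_left _ (by omega)
    have h4 : 5 * (2 ^ l * 2) ≤ 4 * 5 ^ l := by
      obtain ⟨j, rfl⟩ : ∃ j, l = j + 1 := ⟨l - 1, by omega⟩
      have : 2 ^ j ≤ 5 ^ j := Nat.pow_le_pow_left (by norm_num) j
      rw [pow_succ, pow_succ]
      omega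
    have h5 : 5 * m ≤ 4 * (5 ^ l * sz m k l) := by
      calc 5 * m ≤ 5 * (2 ^ l * (2 * sz m k l)) := by omega
        _ = 5 * (2 ^ l * 2) * sz m k l := by ring
        _ ≤ 4 * 5 ^ l * sz m k l := Nat.mul_le_mul_right _ h4
        _ = 4 * (5 ^ l * sz m k l) := by ring
    omega

/-- Two red cliques of size `m - 1` against the star with `m` edges. -/
theorem not_arrows_star (s : ℕ → ℕ) : ¬ Arrows (2 * (s 0 - 1)) (starForest 1 s) := by
  intro hA
  set m := s 0 with hm
  let R : SimpleGraph (Fin (2 * (m - 1))) :=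
    { Adj := fun x y => x ≠ y ∧ ((x : ℕ) < m - 1 ↔ (y : ℕ) < m - 1)
      symm := ⟨fun x y h => ⟨h.1.symm, h.2.symm⟩⟩
      loopless := ⟨fun x h => h.1 rfl⟩ }
  have hs : s ((0 : Fin 1) : ℕ) = m := rfl
  have key : ∀ (Q : SimpleGraph (Fin (2 * (m - 1)))), (∃ S : Fin (2 * (m - 1)) → Prop,
      ∀ x y, Q.Adj x y → (S x ↔ (y : ℕ) < m - 1)) →
      ¬ (starForest 1 s).IsContained Q := by
    rintro Q ⟨S, hS⟩ ⟨φ⟩
    have hinj : Function.Injective (fun x => φ x) := φ.injective
    have hadj : ∀ a : Fin (s ((0 : Fin 1) : ℕ)), Q.Adj (φ ⟨0, none⟩) (φ ⟨0, some a⟩) :=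
      fun a => φ.toHom.map_adj (starForest_adj 1 s 0 a)
    have hcardm : (univ : Finset (Fin (s ((0 : Fin 1) : ℕ)))).card ≤ (range (m - 1)).card := by
      by_cases hSx : S (φ ⟨0, none⟩)
      · refine Finset.card_le_card_of_injOn (fun a => ((φ ⟨0, some a⟩ : Fin _) : ℕ)) ?_ ?_
        · intro a _
          simpa using (hS _ _ (hadj a)).mp hSx
        · intro a _ b _ hab
          have := hinj (Fin.ext hab)
          simpa using this
      · refine Finset.card_le_card_of_injOn
          (fun a => ((φ ⟨0, some a⟩ : Fin _) : ℕ) - (m - 1)) ?_ ?_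
        · intro a _
          have h1 : ¬ ((φ ⟨0, some a⟩ : Fin _) : ℕ) < m - 1 :=
            fun h => hSx ((hS _ _ (hadj a)).mpr h)
          have h2 := (φ ⟨0, some a⟩).2
          simp only [coe_range, Set.mem_Iio]
          omega
        · intro a _ b _ hab
          have h1 : ¬ ((φ ⟨0, some a⟩ : Fin _) : ℕ) < m - 1 :=
            fun h => hSx ((hS _ _ (hadj a)).mpr h)
          have h2 : ¬ ((φ ⟨0, some b⟩ : Fin _) : ℕ) < m - 1 :=
            fun h => hSx ((hS _ _ (hadj b)).mpr h)
          have h3 : φ ⟨0, some a⟩ = φ ⟨0, some b⟩ := by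
            refine Fin.ext ?_
            simp only at hab
            omega
          have := hinj h3
          simpa using this
    rw [Finset.card_univ, Fintype.card_fin, Finset.card_range, hs] at hcardm
    have hm0 : m = 0 := by omega
    have h2 := (φ ⟨0, none⟩).2
    omega
  rcases hA R with h | h
  · exact key R ⟨fun x => (x : ℕ) < m - 1, fun x y hxy => hxy.2⟩ h
  · refine key Rᶜ ⟨fun x => ¬ (x : ℕ) < m - 1, fun x y hxy => ?_⟩ h
    rw [SimpleGraph.compl_adj] at hxy
    have : ¬ ((x : ℕ) < m - 1 ↔ (y : ℕ) < m - 1) := fun h => hxy.2 ⟨hxy.1, h⟩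
    tauto

theorem lower_explicit (n x N : ℕ) (hn : 2 ≤ n) (G : SimpleGraph (Fin n))
    (hG : ∀ v, ∃ w, G.Adj v w) (hN : N ≤ n + x) (hA : Arrows N G) :
    n ≤ (2 * x + 1) * 2 ^ (x + 1) + x + 3 := by
  obtain ⟨k, s, hs1, hs2, hsum, hcont⟩ := exists_starForest G hG
  have hAF : Arrows N (starForest k s) := by
    intro R
    rcases hA R with h | h
    · exact Or.inl (hcont.trans h)
    · exact Or.inr (hcont.trans h)
  have hk0 : k ≠ 0 := by
    rintro rfl
    simp at hsum
    omega
  rcases Nat.lt_or_ge k 2 with hk | hk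
  · obtain rfl : k = 1 := by omega
    rw [Finset.sum_range_one] at hsum
    have h1 : ¬ N ≤ 2 * (s 0 - 1) := fun h => not_arrows_star s (hAF.mono h)
    have h2 : n ≤ x + 3 := by omega
    omega
  · obtain ⟨h1, h2, h3, -, -⟩ := main_bounds k hk s hs1 hs2
    have hr : ramseyNumber (starForest k s) ≤ N := Nat.sInf_le hAF
    have hkx : k ≤ x + 1 := by omega
    -- the tails
    set T : ℕ → ℕ := fun i => ∑ l ∈ range (k - i), s (i + l) with hT
    have hT1 : ∀ i < k, T i = s i + T (i + 1) := by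
      intro i hi
      simp only [hT]
      rw [show k - i = (k - (i + 1)) + 1 by omega, Finset.sum_range_succ']
      rw [add_comm]
      congr 1
      refine Finset.sum_congr rfl fun l _ => ?_
      congr 1
      omega
    have hT0 : T 0 = ∑ l ∈ range k, s l := by
      simp only [hT, Nat.sub_zero, Nat.zero_add]
    have hTk : T k = 0 := by simp [hT]
    have hpre : ∀ i ≤ k, ∑ l ∈ range i, s l + T i = T 0 := by
      intro i
      induction i with
      | zero => intro _; simp
      | succ i ih =>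
        intro hi
        have e1 := ih (by omega)
        have e2 := hT1 i (by omega)
        rw [Finset.sum_range_succ]
        omega
    have hstep : ∀ i < k, T i + (2 * x + 1) ≤ 2 * (T (i + 1) + (2 * x + 1)) := by
      intro i hi
      have e1 : ∑ l ∈ range i, s l + 2 * s i ≤ leadingTerm k s :=
        Finset.le_sup (f := fun i => ∑ l ∈ range i, s l + 2 * s i) (by simpa using hi)
      have e2 := hpre i hi.le
      have e3 := hT1 i hi
      omega
    have hpow : ∀ i ≤ k, T 0 + (2 * x + 1) ≤ 2 ^ i * (T i + (2 * x + 1)) := by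
      intro i
      induction i with
      | zero => intro _; simp
      | succ i ih =>
        intro hi
        have e1 := ih (by omega)
        have e2 := hstep i (by omega)
        calc T 0 + (2 * x + 1) ≤ 2 ^ i * (T i + (2 * x + 1)) := e1
          _ ≤ 2 ^ i * (2 * (T (i + 1) + (2 * x + 1))) := Nat.mul_le_mul_left _ e2
          _ = 2 ^ (i + 1) * (T (i + 1) + (2 * x + 1)) := by ring
    have hfin := hpow k le_rfl
    rw [hTk, Nat.zero_add] at hfin
    have hpk : 2 ^ k * (2 * x + 1) ≤ 2 ^ (x + 1) * (2 * x + 1) :=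
      Nat.mul_le_mul_right _ (Nat.pow_le_pow_right (by norm_num) hkx)
    have hcomm : 2 ^ (x + 1) * (2 * x + 1) = (2 * x + 1) * 2 ^ (x + 1) := by ring
    omega

end Pool.Agent.Y421.SF
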