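import Pool.Agent.Results.MP_705b7e_co.StarForestBounds

/-!
Star forests whose smallest star is somewhat larger than before: the last stage of the packing
process of `StarForestBounds` is replaced by an embedding into the other colour, with all centres
in a small set which is joined to almost everything by few edges of the colour that is stuck.
-/

set_option autoImplicit false

namespace Pool.Agent.Y421.SF

open Finset Classical
open Pool.Agent.Results.MP_705b7e_co.StarForestBounds

section

variable {V : Type} [Fintype V]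

/-- The vertices outside `C` which are joined in `B` to `c 0, ..., c (l-1)`. -/
noncomputable def Bl (B : SimpleGraph V) (C : Finset V) (c : ℕ → V) (l : ℕ) : Finset V :=
  univ.filter (fun v => v ∉ C ∧ ∀ a < l, B.Adj v (c a))

theorem dcount (B : SimpleGraph V) (X Y : Finset V) (q : ℕ)
    (h : ∀ v ∈ Y, (X.filter (fun w => B.Adj v w)).card ≤ q) :
    ∑ x ∈ X, (Y.filter (fun v => B.Adj v x)).card ≤ Y.card * q := by
  have e : ∑ x ∈ X, (Y.filter (fun v => B.Adj v x)).card
      = ∑ v ∈ Y, (X.filter (fun w => B.Adj v w)).card := by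
    simp only [Finset.card_filter]
    exact Finset.sum_comm
  rw [e, ← smul_eq_mul]
  exact Finset.sum_le_card_nsmul _ _ _ h

theorem exists_few (B : SimpleGraph V) (X Y : Finset V) (q : ℕ) (hX : X.Nonempty)
    (h : ∀ v ∈ Y, (X.filter (fun w => B.Adj v w)).card ≤ q) :
    ∃ x ∈ X, X.card * (Y.filter (fun v => B.Adj v x)).card ≤ Y.card * q := by
  by_contra hcon
  push Not at hcon
  have h1 : ∑ x ∈ X, Y.card * q < ∑ x ∈ X, X.card * (Y.filter (fun v => B.Adj v x)).card :=
    Finset.sum_lt_sum_of_nonempty hX hcon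
  rw [Finset.sum_const, smul_eq_mul, ← Finset.mul_sum] at h1
  have h2 := Nat.mul_le_mul_left X.card (dcount B X Y q h)
  omega

theorem few_bad (B : SimpleGraph V) (U W : Finset V) (q D : ℕ)
    (h : ∀ v ∈ W, (U.filter (fun w => B.Adj v w)).card ≤ q) :
    (U.filter (fun c => D < (W.filter (fun v => B.Adj v c)).card)).card * (D + 1)
      ≤ W.card * q := by
  have h1 : (U.filter (fun c => D < (W.filter (fun v => B.Adj v c)).card)).card • (D + 1)
      ≤ ∑ x ∈ U.filter (fun c => D < (W.filter (fun v => B.Adj v c)).card),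
        (W.filter (fun v => B.Adj v x)).card := by
    refine Finset.card_nsmul_le_sum _ _ _ ?_
    intro x hx
    exact (Finset.mem_filter.mp hx).2
  rw [smul_eq_mul] at h1
  refine h1.trans (le_trans ?_ (dcount B U W q h))
  exact Finset.sum_le_sum_of_subset (Finset.filter_subset _ _)

theorem greedy (B : SimpleGraph V) (C U G P : Finset V) (q k : ℕ) (hq : 1 ≤ q)
    (hGP : G ⊆ P) (hPU : P ⊆ U)
    (hdeg : ∀ v, v ∉ C → (U.filter (fun w => B.Adj v w)).card ≤ q)
    (hGc : 6 * q ≤ G.card) (hPc : k ≤ P.card) (v₀ : V) :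
    ∀ j ≤ k, ∃ c : ℕ → V, (∀ a < j, c a ∈ P) ∧ (∀ a < j, a ≤ q → c a ∈ G) ∧
      (∀ a < j, ∀ b < j, c a = c b → a = b) ∧
      (∀ l ≤ j, l ≤ q + 1 → 5 ^ l * (Bl B C c l).card ≤ Fintype.card V) := by
  intro j
  induction j with
  | zero =>
    intro _
    refine ⟨fun _ => v₀, by simp, by simp, by simp, ?_⟩
    intro l hl _
    obtain rfl : l = 0 := by omega
    simpa using Finset.card_le_univ _
  | succ j ih =>
    intro hj
    obtain ⟨c, h1, h2, h3, h4⟩ := ih (by omega)
    have hprev : ((range j).image c).card ≤ j := by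
      simpa using Finset.card_image_le (s := range j) (f := c)
    have hupd : ∀ x : V, ∀ l ≤ j, Bl B C (Function.update c j x) l = Bl B C c l := by
      intro x l hl
      ext v
      simp only [Bl, mem_filter, mem_univ, true_and]
      refine and_congr_right fun _ => ?_
      refine forall_congr' fun a => ?_
      refine forall_congr' fun ha => ?_
      rw [Function.update_of_ne (by omega)]
    have hnew : ∀ x : V, x ∈ P → x ∉ (range j).image c → (j ≤ q → x ∈ G) →
        (j + 1 ≤ q + 1 → 5 ^ (j + 1) * (Bl B C (Function.update c j x) (j + 1)).card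
          ≤ Fintype.card V) →
        ∃ c : ℕ → V, (∀ a < j + 1, c a ∈ P) ∧ (∀ a < j + 1, a ≤ q → c a ∈ G) ∧
          (∀ a < j + 1, ∀ b < j + 1, c a = c b → a = b) ∧
          (∀ l ≤ j + 1, l ≤ q + 1 → 5 ^ l * (Bl B C c l).card ≤ Fintype.card V) := by
      intro x hx hxc hxG hxB
      have hne : ∀ a < j, c a ≠ x := by
        intro a ha he
        exact hxc (Finset.mem_image.mpr ⟨a, by simpa using ha, he⟩)
      refine ⟨Function.update c j x, ?_, ?_, ?_, ?_⟩
      · intro a ha
        rcases Nat.lt_or_ge a j with h | h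
        · rw [Function.update_of_ne (by omega)]
          exact h1 a h
        · obtain rfl : a = j := by omega
          simpa using hx
      · intro a ha haq
        rcases Nat.lt_or_ge a j with h | h
        · rw [Function.update_of_ne (by omega)]
          exact h2 a h haq
        · obtain rfl : a = j := by omega
          simpa using hxG haq
      · intro a ha b hb hab
        rcases Nat.lt_or_ge a j with h | h
        · rcases Nat.lt_or_ge b j with h' | h'
          · rw [Function.update_of_ne (by omega), Function.update_of_ne (by omega)] at hab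
            exact h3 a h b h' hab
          · obtain rfl : b = j := by omega
            rw [Function.update_of_ne (by omega), Function.update_self] at hab
            exact absurd hab (hne a h)
        · obtain rfl : a = j := by omega
          rcases Nat.lt_or_ge b a with h' | h'
          · rw [Function.update_of_ne (a := b) (by omega), Function.update_self] at hab
            exact absurd hab.symm (hne b h')
          · omega
      · intro l hl hlq
        rcases Nat.lt_or_ge j l with h | h
        · obtain rfl : l = j + 1 := by omega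
          exact hxB hlq
        · rw [hupd x l h]
          exact h4 l h hlq
    rcases Nat.lt_or_ge q j with hqj | hqj
    · -- any new element of P
      obtain ⟨x, hx⟩ : (P \ (range j).image c).Nonempty := by
        rw [← Finset.card_pos]
        have := Finset.le_card_sdiff ((range j).image c) P
        omega
      rw [Finset.mem_sdiff] at hx
      exact hnew x hx.1 hx.2 (fun h => by omega) (fun h => by omega)
    · -- a good element of G
      have hcard : 5 * q ≤ (G \ (range j).image c).card := by
        have := Finset.le_card_sdiff ((range j).image c) G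
        omega
      have hne : (G \ (range j).image c).Nonempty := by
        rw [← Finset.card_pos]
        omega
      obtain ⟨x, hx, hxc⟩ := exists_few B (G \ (range j).image c) (Bl B C c j) q hne (by
        intro v hv
        simp only [Bl, mem_filter, mem_univ, true_and] at hv
        refine le_trans (Finset.card_le_card ?_) (hdeg v hv.1)
        exact Finset.filter_subset_filter _ (Finset.sdiff_subset.trans (hGP.trans hPU)))
      rw [Finset.mem_sdiff] at hx
      refine hnew x (hGP hx.1) hx.2 (fun _ => hx.1) (fun _ => ?_)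
      have hle : (Bl B C (Function.update c j x) (j + 1)).card
          ≤ ((Bl B C c j).filter (fun v => B.Adj v x)).card := by
        refine Finset.card_le_card ?_
        intro v hv
        simp only [Bl, mem_filter, mem_univ, true_and] at hv ⊢
        refine ⟨⟨hv.1, fun a ha => ?_⟩, ?_⟩
        · have := hv.2 a (by omega)
          rwa [Function.update_of_ne (by omega)] at this
        · have := hv.2 j (by omega)
          rwa [Function.update_self] at this
      have h5 : 5 * ((Bl B C c j).filter (fun v => B.Adj v x)).card ≤ (Bl B C c j).card := by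
        have h6 : 5 * q * ((Bl B C c j).filter (fun v => B.Adj v x)).card
            ≤ (Bl B C c j).card * q :=
          (Nat.mul_le_mul_right _ hcard).trans hxc
        have h7 : (5 * ((Bl B C c j).filter (fun v => B.Adj v x)).card) * q
            ≤ (Bl B C c j).card * q := by
          calc _ = 5 * q * ((Bl B C c j).filter (fun v => B.Adj v x)).card := by ring
            _ ≤ _ := h6
        exact Nat.le_of_mul_le_mul_right h7 (by omega)
      have h8 := h4 j le_rfl (by omega)
      calc 5 ^ (j + 1) * (Bl B C (Function.update c j x) (j + 1)).card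
          ≤ 5 ^ (j + 1) * ((Bl B C c j).filter (fun v => B.Adj v x)).card :=
            Nat.mul_le_mul_left _ hle
        _ = 5 ^ j * (5 * ((Bl B C c j).filter (fun v => B.Adj v x)).card) := by ring
        _ ≤ 5 ^ j * (Bl B C c j).card := Nat.mul_le_mul_left _ h5
        _ ≤ Fintype.card V := h8

/-- Hall's theorem for star forests with given centres. -/
theorem contained_of_hall (R : SimpleGraph V) (k : ℕ) (s : ℕ → ℕ) (c : ℕ → V) (L : Finset V)
    (hinj : ∀ a < k, ∀ b < k, c a = c b → a = b)
    (hL : ∀ a < k, c a ∉ L)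
    (hall : ∀ I : Finset (Fin k), I.Nonempty →
      ∑ i ∈ I, s i ≤ (L.filter (fun v => ∃ i ∈ I, R.Adj (c i) v)).card) :
    (starForest k s).IsContained R := by
  have key : ∀ S : Finset (Σ i : Fin k, Fin (s i)),
      S.card ≤ (S.biUnion (fun x => L.filter (fun v => R.Adj (c x.1) v))).card := by
    intro S
    rcases S.eq_empty_or_nonempty with rfl | hS
    · simp
    have h1 := hall (S.image Sigma.fst) (hS.image _)
    have h2 : S.card ≤ ∑ i ∈ S.image Sigma.fst, s i := by
      have : S ⊆ (S.image Sigma.fst).sigma (fun i => (univ : Finset (Fin (s i)))) := by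
        intro x hx
        simp only [mem_sigma, mem_univ, and_true]
        exact Finset.mem_image_of_mem _ hx
      refine (Finset.card_le_card this).trans ?_
      rw [Finset.card_sigma]
      simp
    refine h2.trans (h1.trans (Finset.card_le_card ?_))
    intro v hv
    simp only [mem_filter, mem_image] at hv
    obtain ⟨hvL, i, ⟨x, hx, rfl⟩, hadj⟩ := hv
    simp only [mem_biUnion, mem_filter]
    exact ⟨x, hx, hvL, hadj⟩
  obtain ⟨f, hf1, hf2⟩ := (Finset.all_card_le_biUnion_card_iff_exists_injective _).mp key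
  have hf3 : ∀ x, f x ∈ L ∧ R.Adj (c x.1) (f x) := by
    intro x
    simpa using hf2 x
  refine ⟨⟨⟨fun x => match x with
    | ⟨i, none⟩ => c i
    | ⟨i, some a⟩ => f ⟨i, a⟩, ?_⟩, ?_⟩⟩
  · rintro ⟨i, a⟩ ⟨j, b⟩ ⟨hij, hab⟩
    obtain rfl : i = j := hij
    rcases a with _ | a <;> rcases b with _ | b
    · simp at hab
    · exact (hf3 ⟨i, b⟩).2
    · exact (hf3 ⟨i, a⟩).2.symm
    · simp at hab
  · rintro ⟨i, a⟩ ⟨j, b⟩ hab
    rcases a with _ | a <;> rcases b with _ | b
    · have h1 : c i = c j := hab
      have h2 : i = j := Fin.ext (hinj i i.2 j j.2 h1)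
      subst h2
      rfl
    · have h1 : c i = f ⟨j, b⟩ := hab
      exact absurd (hf3 ⟨j, b⟩).1 (by rw [← h1]; exact hL i i.2)
    · have h1 : f ⟨i, a⟩ = c j := hab
      exact absurd (hf3 ⟨i, a⟩).1 (by rw [h1]; exact hL j j.2)
    · have h1 : f ⟨i, a⟩ = f ⟨j, b⟩ := hab
      have h2 := hf1 h1
      cases h2
      rfl

theorem lemmaA (R B : SimpleGraph V) (hRB : ∀ v u, v ≠ u → ¬ R.Adj u v → B.Adj v u)
    (k t q : ℕ) (s : ℕ → ℕ) (hqk : q + 1 ≤ k) (hq : 1 ≤ q)
    (C U : Finset V) (hC : C.card + 1 ≤ k) (hU : q + 1 + t ≤ U.card)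
    (hdeg : ∀ v, v ∉ C → (U.filter (fun w => B.Adj v w)).card ≤ q)
    (ht : 8 * q ≤ t + 1) (htk : k ≤ t + 1)
    (hN1 : ∑ l ∈ range k, s l + 2 * k ≤ Fintype.card V + 1)
    (hN2 : Fintype.card V ≤ 3 * (s 0 + 1))
    (hN3 : Fintype.card V * q < (q + 1) * (∑ l ∈ range (q + 1), s l + 1))
    (hN4 : ∀ l, 1 ≤ l → l ≤ q → Fintype.card V ≤ 5 ^ l * s l) :
    (starForest k s).IsContained R := by
  set W : Finset V := univ \ C with hW
  have hWcard : W.card ≤ Fintype.card V := Finset.card_le_univ _
  have hdW : ∀ v ∈ W, (U.filter (fun w => B.Adj v w)).card ≤ q := by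
    intro v hv
    exact hdeg v (Finset.mem_sdiff.mp hv).2
  set D := ∑ l ∈ range (q + 1), s l with hD
  have hs0D : s 0 ≤ D := by
    rw [hD, Finset.sum_range_succ']
    omega
  set P' := U.filter (fun c => D < (W.filter (fun v => B.Adj v c)).card) with hP'
  set G' := U.filter (fun c => s 0 < (W.filter (fun v => B.Adj v c)).card) with hG'
  set P := U \ P' with hP
  set G := U \ G' with hG
  have hPmem : ∀ c ∈ P, (W.filter (fun v => B.Adj v c)).card ≤ D := by
    intro c hc
    rw [hP, Finset.mem_sdiff, hP', Finset.mem_filter] at hc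
    by_contra hcon
    exact hc.2 ⟨hc.1, by omega⟩
  have hGmem : ∀ c ∈ G, (W.filter (fun v => B.Adj v c)).card ≤ s 0 := by
    intro c hc
    rw [hG, Finset.mem_sdiff, hG', Finset.mem_filter] at hc
    by_contra hcon
    exact hc.2 ⟨hc.1, by omega⟩
  have hGP : G ⊆ P := by
    intro c hc
    have h1 := hGmem c hc
    rw [hG, Finset.mem_sdiff] at hc
    rw [hP, Finset.mem_sdiff, hP', Finset.mem_filter]
    exact ⟨hc.1, fun h => by omega⟩
  have hPU : P ⊆ U := Finset.sdiff_subset
  have hPc : k ≤ P.card := by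
    have h1 := few_bad B U W q D hdW
    have h2 : U.card - P'.card ≤ P.card := Finset.le_card_sdiff P' U
    have h3 : P'.card < q + 1 := by
      have h4 : P'.card * (D + 1) < (q + 1) * (D + 1) :=
        h1.trans_lt ((Nat.mul_le_mul_right _ hWcard).trans_lt hN3)
      exact Nat.lt_of_mul_lt_mul_right h4
    omega
  have hGc : 6 * q ≤ G.card := by
    have h1 := few_bad B U W q (s 0) hdW
    have h2 : U.card - G'.card ≤ G.card := Finset.le_card_sdiff G' U
    have h3 : G'.card ≤ 3 * q := by
      have h4 : G'.card * (s 0 + 1) ≤ (3 * q) * (s 0 + 1) := by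
        refine h1.trans ((Nat.mul_le_mul_right _ (hWcard.trans hN2)).trans ?_)
        exact le_of_eq (by ring)
      exact Nat.le_of_mul_le_mul_right h4 (by omega)
    omega
  have hUne : U.Nonempty := by
    rw [← Finset.card_pos]
    omega
  obtain ⟨v₀, -⟩ := hUne
  obtain ⟨c, c1, c2, c3, c4⟩ := greedy B C U G P q k hq hGP hPU hdeg hGc hPc v₀ k le_rfl
  set Z : Finset V := (range k).image c with hZ
  have hZc : Z.card ≤ k := by
    simpa using Finset.card_image_le (s := range k) (f := c)
  set L : Finset V := W \ Z with hL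
  have hLc : ∑ l ∈ range k, s l ≤ L.card := by
    have h1 : W.card - Z.card ≤ L.card := Finset.le_card_sdiff Z W
    have h2 : (univ : Finset V).card - C.card ≤ W.card := Finset.le_card_sdiff C (univ : Finset V)
    rw [Finset.card_univ] at h2
    omega
  refine contained_of_hall R k s c L c3 ?_ ?_
  · intro a ha hmem
    rw [hL, Finset.mem_sdiff] at hmem
    exact hmem.2 (Finset.mem_image.mpr ⟨a, by simpa using ha, rfl⟩)
  intro I hI
  -- the vertices of `L` missed by the centres in `I`
  have hsplit := Finset.card_filter_add_card_filter_not (s := L)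
    (fun v => ∃ i ∈ I, R.Adj (c i) v)
  have hmiss : ∀ v ∈ L.filter (fun v => ¬ ∃ i ∈ I, R.Adj (c i) v), v ∉ C ∧
      ∀ i ∈ I, B.Adj v (c i) := by
    intro v hv
    rw [Finset.mem_filter, hL, Finset.mem_sdiff, hW, Finset.mem_sdiff] at hv
    refine ⟨hv.1.1.2, fun i hi => ?_⟩
    refine hRB _ _ ?_ (fun hadj => hv.2 ⟨i, hi, hadj⟩)
    rintro rfl
    exact hv.1.2 (Finset.mem_image.mpr ⟨i, by simp, rfl⟩)
  have hsumI : ∑ i ∈ I, s i + ∑ i ∈ Iᶜ, s i = ∑ l ∈ range k, s l := by
    rw [Finset.sum_add_sum_compl, Fin.sum_univ_eq_sum_range]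
  suffices hsuff : (L.filter (fun v => ¬ ∃ i ∈ I, R.Adj (c i) v)).card ≤ ∑ i ∈ Iᶜ, s i by
    omega
  by_cases h0 : ∀ a, ∀ ha : a < k, a ≤ q → (⟨a, ha⟩ : Fin k) ∈ I
  · -- all of the first `q + 1` centres
    have : L.filter (fun v => ¬ ∃ i ∈ I, R.Adj (c i) v) = ∅ := by
      rw [Finset.eq_empty_iff_forall_notMem]
      intro v hv
      obtain ⟨hvC, hv2⟩ := hmiss v hv
      have h1 := hdeg v hvC
      have h2 : ((range (q + 1)).image c).card = q + 1 := by
        rw [Finset.card_image_of_injOn, Finset.card_range]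
        intro a ha b hb hab
        simp only [coe_range, Set.mem_Iio] at ha hb
        exact c3 a (by omega) b (by omega) hab
      have h3 : (range (q + 1)).image c ⊆ U.filter (fun w => B.Adj v w) := by
        intro w hw
        obtain ⟨a, ha, rfl⟩ := Finset.mem_image.mp hw
        rw [Finset.mem_range] at ha
        rw [Finset.mem_filter]
        exact ⟨hPU (c1 a (by omega)), hv2 ⟨a, by omega⟩ (h0 a (by omega) (by omega))⟩
      have := Finset.card_le_card h3
      omega
    rw [this]
    simp
  push Not at h0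
  -- the first missing centre
  have hex : ∃ a : ℕ, a ≤ q ∧ ∃ ha : a < k, (⟨a, ha⟩ : Fin k) ∉ I := by
    obtain ⟨a, ha, haq, hn⟩ := h0
    exact ⟨a, haq, ha, hn⟩
  obtain ⟨a, ⟨haq, hak, hamem⟩, hmin0⟩ : ∃ a : ℕ, (a ≤ q ∧ ∃ ha : a < k, (⟨a, ha⟩ : Fin k) ∉ I) ∧
      ∀ b < a, ¬ (b ≤ q ∧ ∃ hb : b < k, (⟨b, hb⟩ : Fin k) ∉ I) :=
    ⟨Nat.find hex, Nat.find_spec hex, fun b hb => Nat.find_min hex hb⟩
  have hmin : ∀ b < a, ∀ hb : b < k, (⟨b, hb⟩ : Fin k) ∈ I := by
    intro b hb hbk
    by_contra hcon
    exact hmin0 b hb ⟨by omega, hbk, hcon⟩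
  have hsa : s a ≤ ∑ i ∈ Iᶜ, s i :=
    Finset.single_le_sum (f := fun i : Fin k => s i) (fun _ _ => Nat.zero_le _)
      (Finset.mem_compl.mpr hamem)
  rcases Nat.eq_zero_or_pos a with ha0 | ha0
  · -- the first centre is missing
    obtain ⟨i, hi⟩ := hI
    rcases Nat.lt_or_ge q i with hqi | hqi
    · -- take the smallest member of `I`
      by_cases hall : ∀ j ∈ I, q < (j : ℕ)
      · have h1 : ∑ l ∈ range (q + 1), s l ≤ ∑ i ∈ Iᶜ, s i := by
          have : ∑ l ∈ range (q + 1), s l = ∑ l : Fin (q + 1), s l :=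
            (Fin.sum_univ_eq_sum_range (fun i => s i) (q + 1)).symm
          rw [this]
          have h2 : ∑ l : Fin (q + 1), s l
              = ∑ i ∈ (univ : Finset (Fin (q + 1))).map (Fin.castLEEmb hqk), s i := by
            rw [Finset.sum_map]
            rfl
          rw [h2]
          refine Finset.sum_le_sum_of_subset ?_
          intro x hx
          rw [Finset.mem_map] at hx
          obtain ⟨y, -, rfl⟩ := hx
          rw [Finset.mem_compl]
          intro hmem
          have := hall _ hmem
          simp only [Fin.castLEEmb_apply, Fin.val_castLE] at this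
          have := y.2
          omega
        refine le_trans ?_ h1
        have h3 := hPmem _ (c1 i i.2)
        refine le_trans (Finset.card_le_card ?_) h3
        intro v hv
        obtain ⟨hv1, hv2⟩ := hmiss v hv
        rw [Finset.mem_filter]
        exact ⟨by rw [hW, Finset.mem_sdiff]; exact ⟨Finset.mem_univ _, hv1⟩, hv2 i hi⟩
      · push Not at hall
        obtain ⟨j, hj, hjq⟩ := hall
        have h3 := hGmem _ (c2 j j.2 hjq)
        rw [ha0] at hsa
        refine le_trans (le_trans (Finset.card_le_card ?_) h3) hsa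
        intro v hv
        obtain ⟨hv1, hv2⟩ := hmiss v hv
        rw [Finset.mem_filter]
        exact ⟨by rw [hW, Finset.mem_sdiff]; exact ⟨Finset.mem_univ _, hv1⟩, hv2 j hj⟩
    · have h3 := hGmem _ (c2 i i.2 hqi)
      rw [ha0] at hsa
      refine le_trans (le_trans (Finset.card_le_card ?_) h3) hsa
      intro v hv
      obtain ⟨hv1, hv2⟩ := hmiss v hv
      rw [Finset.mem_filter]
      exact ⟨by rw [hW, Finset.mem_sdiff]; exact ⟨Finset.mem_univ _, hv1⟩, hv2 i hi⟩
  · refine le_trans ?_ hsa
    have h1 := c4 a (by omega) (by omega)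
    have h2 := hN4 a ha0 haq
    have h3 : (Bl B C c a).card ≤ s a := Nat.le_of_mul_le_mul_left (h1.trans h2) (by positivity)
    refine le_trans (Finset.card_le_card ?_) h3
    intro v hv
    obtain ⟨hv1, hv2⟩ := hmiss v hv
    simp only [Bl, mem_filter, mem_univ, true_and]
    exact ⟨hv1, fun b hb => hv2 ⟨b, by omega⟩ (hmin b hb (by omega))⟩

/-- The main packing theorem. -/
theorem pack_main (k t : ℕ) (s ρ : ℕ → ℕ) (hk : 2 ≤ k)
    (hρ : ∀ i < k, ρ i = ρ (i + 1) + s i + 1) (hρk : ρ k = 0)
    (hc : ∀ i < k - 1, 2 * (s i + (k - i)) + k ≤ ρ i + t + 1)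
    (hV : ρ 0 + t ≤ Fintype.card V)
    (hqk : s (k - 1) + 1 ≤ k) (hq : 1 ≤ s (k - 1))
    (ht : 8 * s (k - 1) ≤ t + 1) (htk : k ≤ t + 1)
    (hN1 : ∑ l ∈ range k, s l + 2 * k ≤ Fintype.card V + 1)
    (hN2 : Fintype.card V ≤ 3 * (s 0 + 1))
    (hN3 : Fintype.card V * s (k - 1) <
      (s (k - 1) + 1) * (∑ l ∈ range (s (k - 1) + 1), s l + 1))
    (hN4 : ∀ l, 1 ≤ l → l ≤ s (k - 1) → Fintype.card V ≤ 5 ^ l * s l) (R : SimpleGraph V) :
    (starForest k s).IsContained R ∨ (starForest k s).IsContained Rᶜ := by
  have hpos : 0 < Fintype.card V := by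
    have := hρ 0 (by omega)
    omega
  obtain ⟨v₀⟩ : Nonempty V := Fintype.card_pos_iff.mp hpos
  have hlast : ∀ Q : SimpleGraph V, Stuck Qᶜ k t s ρ (k - 1) → (starForest k s).IsContained Q := by
    rintro Q ⟨C, U, hC, hU, hst⟩
    have h1 := hρ (k - 1) (by omega)
    rw [show k - 1 + 1 = k by omega, hρk] at h1
    refine lemmaA Q Qᶜ (fun v u hvu hR => by
      rw [SimpleGraph.compl_adj]
      exact ⟨hvu, fun h => hR h.symm⟩) k t (s (k - 1)) s hqk hq C U (by omega) (by omega) ?_
      ht htk hN1 hN2 hN3 hN4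
    intro v hv
    have := hst v hv
    rw [show k - (k - 1) = 1 by omega] at this
    exact Nat.lt_succ_iff.mp this
  rcases pack_or_stuck R k t s ρ hρ hV v₀ k le_rfl with ⟨c, lam, h⟩ | ⟨i, hi, h1⟩
  · exact Or.inl (contained_of_pack R k t s ρ c lam h)
  rcases pack_or_stuck Rᶜ k t s ρ hρ hV v₀ k le_rfl with ⟨c, lam, h⟩ | ⟨m, hm, h2⟩
  · exact Or.inr (contained_of_pack Rᶜ k t s ρ c lam h)
  rcases Nat.lt_or_ge m (k - 1) with hm1 | hm1
  · rcases Nat.lt_or_ge i (k - 1) with hi1 | hi1
    · exfalso
      set s' : ℕ → ℕ := fun j => if j = i ∨ j = m then s j else 0 with hs'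
      set ρ' : ℕ → ℕ := fun j => if j = i ∨ j = m then ρ j else 3 * k with hρ'
      refine not_both_stuck R Rᶜ (fun v u hvu hR => by
        rw [SimpleGraph.compl_adj]
        exact ⟨hvu, fun h => hR h.symm⟩) k t s' ρ' ?_ i m hi hm ?_ ?_
      · intro j hj
        by_cases hjj : j = i ∨ j = m
        · simp only [hs', hρ', hjj, if_true]
          refine hc j ?_
          rcases hjj with rfl | rfl
          · exact hi1
          · exact hm1
        · simp only [hs', hρ', hjj, if_false]
          omega
      · obtain ⟨C, U, hC, hU, hst⟩ := h1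
        refine ⟨C, U, hC, ?_, ?_⟩
        · simpa [hρ'] using hU
        · simpa [hs'] using hst
      · obtain ⟨C, U, hC, hU, hst⟩ := h2
        refine ⟨C, U, hC, ?_, ?_⟩
        · simpa [hρ'] using hU
        · simpa [hs'] using hst
    · obtain rfl : i = k - 1 := by omega
      refine Or.inr (hlast Rᶜ ?_)
      rwa [compl_compl]
  · obtain rfl : m = k - 1 := by omega
    exact Or.inl (hlast R h2)

end

end Pool.Agent.Y421.SF
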